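import Pool.Agent.helper25.TW.Spec2

set_option autoImplicit false

namespace TP.TW

open DP MeasureTheory Finset

theorem VIT_self (a : V) : sd a a = 0 := by
  unfold sd
  simp

theorem VIT_comm (a b : V) : sd a b = sd b a := by
  unfold sd
  omega

theorem VIT_tri (a b c : V) : sd a c ≤ sd a b + sd b c := by
  unfold sd
  omega

theorem VIT_greedy (h : V → ℕ) : ∀ (n : ℕ) (T : Finset V), #T ≤ n → ∃ I : Finset V, I ⊆ T ∧
    (∀ i ∈ I, ∀ j ∈ I, i ≠ j → 2 ^ h i + 2 ^ h j < sd i j) ∧
    ∀ a ∈ T, ∃ i ∈ I, h a ≤ h i ∧ sd a i ≤ 2 ^ h a + 2 ^ h i := by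
  intro n
  induction n with
  | zero =>
    intro T hT
    have : T = ∅ := card_eq_zero.1 (by omega)
    subst this
    exact ⟨∅, by simp, by simp, by simp⟩
  | succ n ih =>
    intro T hT
    rcases T.eq_empty_or_nonempty with rfl | hne
    · exact ⟨∅, by simp, by simp, by simp⟩
    obtain ⟨m, hm, hmax⟩ := T.exists_max_image h hne
    have hss : T.filter (fun a => 2 ^ h a + 2 ^ h m < sd a m) ⊂ T := by
      refine filter_ssubset.2 ⟨m, hm, ?_⟩
      rw [VIT_self]
      exact Nat.not_lt_zero _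
    have hc := card_lt_card hss
    obtain ⟨I', hI1, hI2, hI3⟩ := ih (T.filter (fun a => 2 ^ h a + 2 ^ h m < sd a m)) (by omega)
    refine ⟨insert m I', ?_, ?_, ?_⟩
    · intro x hx
      rcases mem_insert.1 hx with rfl | hx
      · exact hm
      · exact mem_of_mem_filter x (hI1 hx)
    · intro i hi j hj hij
      rcases mem_insert.1 hi with hi' | hi'
      · rcases mem_insert.1 hj with hj' | hj'
        · exact absurd (hi'.trans hj'.symm) hij
        · have := (mem_filter.1 (hI1 hj')).2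
          rw [VIT_comm, Nat.add_comm, hi']
          exact this
      · rcases mem_insert.1 hj with hj' | hj'
        · rw [hj']
          exact (mem_filter.1 (hI1 hi')).2
        · exact hI2 i hi' j hj' hij
    · intro a ha
      by_cases h1 : 2 ^ h a + 2 ^ h m < sd a m
      · obtain ⟨i, hi, hi2⟩ := hI3 a (mem_filter.2 ⟨ha, h1⟩)
        exact ⟨i, mem_insert_of_mem hi, hi2⟩
      · exact ⟨m, mem_insert_self _ _, hmax a ha, not_lt.1 h1⟩

theorem VIT : VIT_stmt := by
  classical
  intro R S hR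
  obtain ⟨h, hh⟩ : ∃ h : V → ℕ, ∀ a, h a = Nat.findGreatest
      (fun j => 4 ^ j ≤ R * #(S.filter fun b => sd a b ≤ 2 ^ j)) (R * #S) := ⟨fun a => _, fun a => rfl⟩
  have hspec : ∀ a ∈ S, 4 ^ h a ≤ R * #(S.filter fun b => sd a b ≤ 2 ^ h a) := by
    intro a ha
    have h0 : 4 ^ 0 ≤ R * #(S.filter fun b => sd a b ≤ 2 ^ 0) := by
      have h1 : 0 < #(S.filter fun b => sd a b ≤ 2 ^ 0) := by
        apply card_pos.2
        refine ⟨a, mem_filter.2 ⟨ha, ?_⟩⟩
        rw [VIT_self]
        exact Nat.zero_le _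
      have := Nat.mul_le_mul hR h1
      simpa using this
    have := Nat.findGreatest_spec (P := fun j => 4 ^ j ≤ R * #(S.filter fun b => sd a b ≤ 2 ^ j))
      (Nat.zero_le (R * #S)) h0
    rw [← hh a] at this
    exact this
  have hlow : ∀ a, Low R S a (h a) := by
    intro a j hj
    have hcard : #(S.filter fun b => sd a b ≤ 2 ^ j) ≤ #S := card_filter_le _ _
    by_cases hjn : j ≤ R * #S
    · rw [hh a] at hj
      have := Nat.findGreatest_is_greatest hj hjn
      simp only [not_le] at this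
      exact this.le
    · have h1 : j < 4 ^ j := Nat.lt_pow_self (by norm_num)
      have h2 := Nat.mul_le_mul_left R hcard
      omega
  obtain ⟨I, hI1, hI2, hI3⟩ := VIT_greedy h #S S le_rfl
  refine ⟨I, h, ?_, ?_, fun i _ => hlow i⟩
  · intro a ha
    obtain ⟨i, hi, hle, hsd⟩ := hI3 a ha
    refine ⟨i, hi, ?_⟩
    have : 2 ^ h a ≤ 2 ^ h i := Nat.pow_le_pow_right (by norm_num) hle
    omega
  · have hdis : ∀ i ∈ I, ∀ j ∈ I, i ≠ j → Disjoint (S.filter fun b => sd i b ≤ 2 ^ h i)
        (S.filter fun b => sd j b ≤ 2 ^ h j) := by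
      intro i hi j hj hij
      rw [Finset.disjoint_left]
      intro b hb1 hb2
      have h1 := (mem_filter.1 hb1).2
      have h2 := (mem_filter.1 hb2).2
      have h3 := hI2 i hi j hj hij
      have h4 := VIT_tri i b j
      have h5 := VIT_comm b j
      omega
    have hsum : ∑ i ∈ I, #(S.filter fun b => sd i b ≤ 2 ^ h i) ≤ #S := by
      rw [← card_biUnion hdis]
      apply card_le_card
      intro b hb
      obtain ⟨i, _, hb⟩ := mem_biUnion.1 hb
      exact mem_of_mem_filter b hb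
    calc ∑ i ∈ I, 4 ^ h i ≤ ∑ i ∈ I, R * #(S.filter fun b => sd i b ≤ 2 ^ h i) :=
          sum_le_sum fun i hi => hspec i (hI1 hi)
      _ = R * ∑ i ∈ I, #(S.filter fun b => sd i b ≤ 2 ^ h i) := by rw [mul_sum]
      _ ≤ R * #S := Nat.mul_le_mul_left _ hsum

end TP.TW
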