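import Pool.Agent.helper25.TW.Spec

set_option autoImplicit false

namespace TP.TW

open DP MeasureTheory Finset

theorem CV_dI_le (u v : V) : dI u v ≤ sd u v := by
  unfold dI sd I
  omega

theorem CV_phi {n : ℕ} {v : V} (h : v ∈ (univ : Finset (Fin n × Fin n)).image phi) :
    ∃ i j : ℤ, 0 ≤ i ∧ i < n ∧ 0 ≤ j ∧ j < n ∧ v = (2 * i + j, j) := by
  rw [mem_image] at h
  obtain ⟨p, _, rfl⟩ := h
  refine ⟨(p.1 : ℤ), (p.2 : ℤ), by omega, by have := p.1.2; omega, by omega, by have := p.2.2; omega, rfl⟩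

theorem CV_br (w : V) : br w = w ∨ br w = (w.1 - 1, w.2) := by
  unfold br
  split_ifs
  · exact Or.inl rfl
  · exact Or.inr rfl

theorem CV : CV_stmt := by
  intro n c S v₀ hn hS hv hB
  obtain ⟨k, w, z, _, h1, h8, hcon⟩ := hB
  have hwS : br w ∈ S := hcon.1.1
  obtain ⟨i₀, j₀, hi0, hi1, hj0, hj1, hv0⟩ := CV_phi hv
  obtain ⟨i, j, hi2, hi3, hj2, hj3, hw0⟩ := CV_phi (hS hwS)
  have hw1 : w.2 = j ∧ (w.1 = 2 * i + j ∨ w.1 = 2 * i + j + 1) := by
    rcases CV_br w with h | h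
    · rw [h] at hw0
      rw [hw0]
      exact ⟨rfl, Or.inl rfl⟩
    · rw [h] at hw0
      have e1 := congrArg Prod.fst hw0
      have e2 := congrArg Prod.snd hw0
      simp only at e1 e2
      exact ⟨e2, Or.inr (by omega)⟩
  have hv1 : v₀.1 = 2 * i₀ + j₀ := by rw [hv0]
  have hv2 : v₀.2 = j₀ := by rw [hv0]
  have hI0 : I v₀ = i₀ := by unfold I; omega
  have hIw : I w = i := by unfold I; omega
  obtain ⟨ρ, hρ⟩ : ∃ ρ : ℕ, ρ = dI v₀ w := ⟨_, rfl⟩
  have hρ1 : (i₀ - i).natAbs ≤ ρ ∧ (j₀ - j).natAbs ≤ ρ ∧ ρ < n := by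
    rw [hρ]
    unfold dI
    rw [hI0, hIw, hv2, hw1.1]
    omega
  by_cases hs : ρ < 64
  · left
    refine ⟨br w, hwS, ?_⟩
    rw [hw0]
    unfold sd
    simp only [hv1, hv2]
    omega
  · right
    have hs' : 64 ≤ ρ := not_lt.1 hs
    have hlog6 : 6 ≤ Nat.log 2 ρ := Nat.le_log_of_pow_le (by norm_num) (by norm_num; exact hs')
    obtain ⟨s, hsd⟩ : ∃ s : ℕ, Nat.log 2 ρ = s + 6 := ⟨Nat.log 2 ρ - 6, by omega⟩
    have hlo : 2 ^ (s + 6) ≤ ρ := by
      rw [← hsd]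
      exact Nat.pow_log_le_self 2 (by omega)
    have hhi : ρ < 2 ^ (s + 7) := by
      have := Nat.lt_pow_succ_log_self (b := 2) (by norm_num) ρ
      rw [hsd] at this
      exact this
    have hsn : s ≤ Nat.log 2 n := by
      have : Nat.log 2 ρ ≤ Nat.log 2 n := Nat.log_mono_right (by omega)
      omega
    obtain ⟨t, ht⟩ : ∃ t : ℕ, t = 2 ^ s := ⟨_, rfl⟩
    have ht1 : 1 ≤ t := by rw [ht]; exact Nat.one_le_two_pow
    have hlo' : 64 * t ≤ ρ := by
      rw [ht]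
      rw [pow_add] at hlo
      omega
    have hhi' : ρ < 128 * t := by
      rw [ht]
      rw [pow_add] at hhi
      omega
    have htZ : ((2 : ℤ) ^ s) = (t : ℤ) := by rw [ht]; push_cast; rfl
    have htp : (0 : ℤ) < (t : ℤ) := by omega
    refine ⟨s, mem_range.2 (by omega), k, (w.1 - v₀.1) / (t : ℤ), ?_, (w.2 - v₀.2) / (t : ℤ), ?_, ?_⟩
    · rw [mem_Icc]
      constructor
      · apply Int.le_ediv_of_mul_le htp
        omega
      · apply Int.lt_add_one_iff.1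
        apply Int.ediv_lt_of_lt_mul htp
        omega
    · rw [mem_Icc]
      constructor
      · apply Int.le_ediv_of_mul_le htp
        omega
      · apply Int.lt_add_one_iff.1
        apply Int.ediv_lt_of_lt_mul htp
        omega
    · rw [htZ, ← ht]
      have e1 := Int.emod_add_mul_ediv (w.1 - v₀.1) (t : ℤ)
      have e2 := Int.emod_add_mul_ediv (w.2 - v₀.2) (t : ℤ)
      have e3 := Int.emod_nonneg (w.1 - v₀.1) htp.ne'
      have e4 := Int.emod_nonneg (w.2 - v₀.2) htp.ne'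
      have e5 := Int.emod_lt_of_pos (w.1 - v₀.1) htp
      have e6 := Int.emod_lt_of_pos (w.2 - v₀.2) htp
      generalize (w.1 - v₀.1) % (t : ℤ) = r1 at e1 e3 e5
      generalize (w.2 - v₀.2) % (t : ℤ) = r2 at e2 e4 e6
      generalize (t : ℤ) * ((w.1 - v₀.1) / (t : ℤ)) = m1 at e1 ⊢
      generalize (t : ℤ) * ((w.2 - v₀.2) / (t : ℤ)) = m2 at e2 ⊢
      refine ⟨w, z, ?_, ?_, hcon⟩
      · unfold sd
        simp only
        omega
      · have hd := CV_dI_le w z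
        rw [← hρ] at h8
        have hd2 : 8 * t ≤ sd w z + 1 := by omega
        unfold sd at hd2 ⊢
        simp only
        omega

end TP.TW
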