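import Pool.Agent.helper25.TW.Spec2

set_option autoImplicit false

namespace TP.TW

open DP MeasureTheory Finset

instance GDS_prob : IsProbabilityMeasure P1 := by
  unfold P1
  infer_instance

theorem GDS (cv : CV_stmt) : GDS_stmt := by
  intro n R S I h v₀ hn hS hv hV hfar
  have hemp : ∀ w ∈ S, ¬ sd v₀ w ≤ 200 := by
    intro w hw hle
    obtain ⟨i, hi, hwi⟩ := hV.1 w hw
    have h1 := hfar i hi
    have h2 : 1 ≤ 2 ^ h i := Nat.one_le_two_pow
    have h3 : sd v₀ i ≤ sd v₀ w + sd w i := by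
      unfold sd
      omega
    omega
  have hsub : (TP.Ev fun c => BAD c S v₀) ⊆
      ⋃ s ∈ range (Nat.log 2 n + 1), ⋃ k ∈ (univ : Finset Bool), ⋃ p ∈ Icc (-400 : ℤ) 400, ⋃ q ∈ Icc (-400 : ℤ) 400,
        TP.Ev fun c => SR c k S (v₀.1 + 2 ^ s * p, v₀.2 + 2 ^ s * q) (2 ^ s) := by
    intro b hb
    have hb' : BAD (TP.col b) S v₀ := hb
    rcases cv n (TP.col b) S v₀ hn hS hv hb' with ⟨w, hw, hle⟩ | ⟨s, hs, k, p, hp, q, hq, hSR⟩
    · exact absurd hle (hemp w hw)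
    · exact Set.mem_iUnion₂.2 ⟨s, hs, Set.mem_iUnion₂.2 ⟨k, mem_univ k, Set.mem_iUnion₂.2 ⟨p, hp,
        Set.mem_iUnion₂.2 ⟨q, hq, hSR⟩⟩⟩⟩
  unfold Pr
  refine (measureReal_mono hsub (measure_ne_top _ _)).trans ?_
  refine (measureReal_biUnion_finset_le _ _).trans (sum_le_sum fun s _ => ?_)
  refine (measureReal_biUnion_finset_le _ _).trans (sum_le_sum fun k _ => ?_)
  refine (measureReal_biUnion_finset_le _ _).trans (sum_le_sum fun p _ => ?_)
  exact measureReal_biUnion_finset_le _ _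

end TP.TW
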