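import Pool.Agent.helper25.TW.Spec2
import Pool.Agent.helper96.DP.Basic

set_option autoImplicit false

namespace TP.TW

open DP MeasureTheory Finset

theorem LEV_br (w i : V) (r : ℕ) (hr : 1 ≤ r) (h : sd (br w) i ≤ 2 * r) : sd i w ≤ 3 * r := by
  have h1 : br w = w ∨ br w = (w.1 - 1, w.2) := by
    unfold br
    split_ifs
    · exact Or.inl rfl
    · exact Or.inr rfl
  rcases h1 with h1 | h1
  · rw [h1] at h
    unfold sd at h ⊢
    omega
  · rw [h1] at h
    unfold sd at h ⊢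
    simp only at h
    omega

theorem LEV : LEV_stmt := by
  classical
  intro R S I h c k x t ht hV hSR
  obtain ⟨u, v, hu, hv, hcon⟩ := hSR
  have huv : 2 * t ≤ sd u v := by
    unfold sd at hu hv ⊢
    omega
  have key : ∀ m ∈ Icc t (3 * t), ∃ i ∈ I, (sd x i ≤ 3 * t + 3 * 2 ^ h i ∧ TCH c k S i (h i) t) ∧
      sd x i ≤ m + 3 * 2 ^ h i ∧ m ≤ sd x i + 3 * 2 ^ h i := by
    intro m hm
    rw [mem_Icc] at hm
    obtain ⟨w, hw, h1, h2⟩ := Con.exit hcon (hu.trans hm.1) (hm.2.trans hv)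
    have h1' : Con {w | w ∈ til S ∧ c w = k} u w := h1.mono Set.inter_subset_left
    have hwS : br w ∈ S := (Con.mem_left h2).1
    obtain ⟨i, hi, hwi⟩ := hV.1 (br w) hwS
    have h3 : sd i w ≤ 3 * 2 ^ h i := LEV_br w i _ Nat.one_le_two_pow hwi
    refine ⟨i, hi, ⟨?_, ?_⟩, ?_, ?_⟩
    · have := sd_triangle x w i
      have h4 := sd_comm i w
      omega
    · by_cases hwu : t ≤ sd w u
      · exact ⟨w, u, h3, hwu, h1'.symm⟩
      · refine ⟨w, v, h3, ?_, h2⟩
        have h4 := sd_triangle u w v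
        have h5 := sd_comm u w
        omega
    · have := sd_triangle x w i
      have h4 := sd_comm i w
      omega
    · have := sd_triangle x i w
      omega
  refine ⟨I.filter fun i => sd x i ≤ 3 * t + 3 * 2 ^ h i ∧ TCH c k S i (h i) t, filter_subset _ _,
    fun i hi => (mem_filter.1 hi).2, ?_⟩
  have hsub : Icc t (3 * t) ⊆ (I.filter fun i => sd x i ≤ 3 * t + 3 * 2 ^ h i ∧ TCH c k S i (h i) t).biUnion
      fun i => Icc (sd x i - 3 * 2 ^ h i) (sd x i + 3 * 2 ^ h i) := by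
    intro m hm
    obtain ⟨i, hi, h1, h2, h3⟩ := key m hm
    exact mem_biUnion.2 ⟨i, mem_filter.2 ⟨hi, h1⟩, mem_Icc.2 ⟨by omega, h3⟩⟩
  have hc := (card_le_card hsub).trans card_biUnion_le
  rw [Nat.card_Icc] at hc
  have h7 : ∑ i ∈ I.filter (fun i => sd x i ≤ 3 * t + 3 * 2 ^ h i ∧ TCH c k S i (h i) t),
      #(Icc (sd x i - 3 * 2 ^ h i) (sd x i + 3 * 2 ^ h i)) ≤
      ∑ i ∈ I.filter (fun i => sd x i ≤ 3 * t + 3 * 2 ^ h i ∧ TCH c k S i (h i) t), 7 * 2 ^ h i := by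
    apply sum_le_sum
    intro i _
    rw [Nat.card_Icc]
    have : 1 ≤ 2 ^ h i := Nat.one_le_two_pow
    omega
  rw [← mul_sum] at h7
  omega

end TP.TW
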