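import Pool.Agent.helper25.TW.Spec

set_option autoImplicit false

namespace TP.TW

open DP MeasureTheory Finset

instance QRS_prob : IsProbabilityMeasure P1 := by
  unfold P1
  infer_instance

theorem QRS_meas {F : Set (V → Bool)} {A : Set V} (h : TP.Loc F A) : MeasurableSet F := by
  obtain ⟨Λ, _, hD⟩ := h
  have hF : F = (fun (b : V → Bool) (i : (Λ.image br : Finset V)) => b i.1) ⁻¹'
      ((fun (b : V → Bool) (i : (Λ.image br : Finset V)) => b i.1) '' F) := by
    ext b
    constructor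
    · intro hb
      exact ⟨b, hb, rfl⟩
    · rintro ⟨b', hb', he⟩
      refine (hD b' b ?_).1 hb'
      intro v hv
      exact congrFun he ⟨br v, mem_image_of_mem br (mem_coe.1 hv)⟩
  rw [hF]
  apply MeasurableSet.preimage
  · exact MeasurableSet.of_discrete
  · exact measurable_pi_lambda _ fun i => measurable_pi_apply i.1

theorem QRS_excl {A B : Set (V → Bool)} {c : ℝ} (hB : MeasurableSet B) (hd : ∀ b ∈ A, b ∉ B) (hc : c ≤ Pr B) :
    Pr A ≤ 1 - min c 1 := by
  have h1 : Pr A ≤ Pr Bᶜ := by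
    unfold Pr
    exact measureReal_mono (fun b hb => hd b hb) (measure_ne_top _ _)
  have h2 : Pr Bᶜ = 1 - Pr B := by
    unfold Pr
    rw [probReal_compl_eq_one_sub hB]
  have h3 := min_le_left c 1
  linarith

theorem QRS (rsw : RSW_stmt) (rc : DP.RC_stmt) (rlm : RLM_stmt) (_lcr : LCR_stmt) : QRS_stmt := by
  obtain ⟨c, hc, L, hL, h⟩ := rsw
  refine ⟨min c 1, lt_min hc one_pos, min_le_right _ _, L, hL, ?_⟩
  intro k a b d e hab hde
  refine ⟨fun h1 h2 => ?_, fun h1 h2 => ?_⟩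
  · refine QRS_excl (B := TP.Ev fun c => hcross c (!k) a b d e) (QRS_meas (rlm (!k) a b d e).1) ?_
      ((h (!k) a b d e hab hde).1 h1 h2)
    rintro β ⟨u, v, huv, hcon⟩ ⟨u', v', hu', hv', hcon'⟩
    rw [if_pos rfl] at huv
    obtain ⟨w, hw, hw'⟩ := rc a b d e {w | w ∈ rect a b d e ∧ TP.col β w = !k}
      {w | w ∈ rect a b d e ∩ Set.univ ∧ TP.col β w = k} (fun w hw => hw.1) (fun w hw => hw.1.1)
      u' v' u v hu' hv' huv.1 huv.2 hcon' hcon
    have e1 := hw.2
    have e2 := hw'.2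
    rw [e2] at e1
    cases k <;> simp at e1
  · refine QRS_excl (B := TP.Ev fun c => vcross c (!k) a b d e) (QRS_meas (rlm (!k) a b d e).2.1) ?_
      ((h (!k) a b d e hab hde).2 h1 h2)
    rintro β ⟨u, v, huv, hcon⟩ ⟨u', v', hu', hv', hcon'⟩
    rw [if_neg (by decide)] at huv
    obtain ⟨w, hw, hw'⟩ := rc a b d e {w | w ∈ rect a b d e ∩ Set.univ ∧ TP.col β w = k}
      {w | w ∈ rect a b d e ∧ TP.col β w = !k} (fun w hw => hw.1.1) (fun w hw => hw.1)
      u v u' v' huv.1 huv.2 hu' hv' hcon hcon'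
    have e1 := hw'.2
    have e2 := hw.2
    rw [e2] at e1
    cases k <;> simp at e1

end TP.TW
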