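import Pool.Agent.helper25.TW.Spec

set_option autoImplicit false

namespace TP.TW

open DP MeasureTheory Finset

instance SPR_prob : IsProbabilityMeasure P1 := by
  unfold P1
  infer_instance

theorem SPR_con {W W' : Set V} {u v : V} (h : Con W u v) (hs : W ⊆ W') : Con W' u v :=
  ⟨hs h.1, by
    have h2 := h.2
    clear h
    induction h2 with
    | refl => exact Relation.ReflTransGen.refl
    | tail _ hbc ih => exact ih.tail ⟨hbc.1, hs hbc.2⟩⟩

theorem SPR_til (S : Finset V) (x w : V) (t : ℕ) (hw : w ∈ til S) (hd : sd x w ≤ 3 * t) :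
    w ∈ til (S.filter fun v => sd x v ≤ 3 * t + 1) := by
  have h1 : br w ∈ S := hw
  change br w ∈ S.filter fun v => sd x v ≤ 3 * t + 1
  rw [mem_filter]
  refine ⟨h1, ?_⟩
  unfold br
  split_ifs
  · omega
  · unfold sd at hd ⊢
    simp only
    omega

theorem SPR_crs (o : Bool) (c : V → Bool) (k : Bool) (S : Finset V) (x : V) (t : ℕ) (a b d e : ℤ)
    (hr : ∀ w ∈ rect a b d e, sd x w ≤ 3 * t) (h : crs o c k (til S) a b d e) :
    crs o c k (til (S.filter fun v => sd x v ≤ 3 * t + 1)) a b d e := by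
  obtain ⟨u, v, huv, hcon⟩ := h
  refine ⟨u, v, huv, SPR_con hcon ?_⟩
  rintro w ⟨⟨hw1, hw2⟩, hw3⟩
  exact ⟨⟨hw1, SPR_til S x w t hw2 (hr w hw1)⟩, hw3⟩

theorem SPR (anr : ANR_stmt) (vsp : VSP_stmt) (_lcr : LCR_stmt) : SPR_stmt := by
  obtain ⟨C, hC, h⟩ := vsp
  refine ⟨4 * C, by positivity, ?_⟩
  intro k S x t ht
  set S' := S.filter fun v => sd x v ≤ 3 * t + 1 with hS'
  have h1 := (h k S' t (x.1 - 3 * t) (x.2 + t) ht).1
  have h2 := (h k S' t (x.1 - 3 * t) (x.2 - 3 * t) ht).1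
  have h3 := (h k S' t (x.1 + t) (x.2 - 3 * t) ht).2
  have h4 := (h k S' t (x.1 - 3 * t) (x.2 - 3 * t) ht).2
  have e1 : x.1 - 3 * (t : ℤ) + 6 * t = x.1 + 3 * t := by ring
  have e2 : x.2 + (t : ℤ) + 2 * t = x.2 + 3 * t := by ring
  have e3 : x.2 - 3 * (t : ℤ) + 2 * t = x.2 - t := by ring
  have e4 : x.1 + (t : ℤ) + 2 * t = x.1 + 3 * t := by ring
  have e5 : x.2 - 3 * (t : ℤ) + 6 * t = x.2 + 3 * t := by ring
  have e6 : x.1 - 3 * (t : ℤ) + 2 * t = x.1 - t := by ring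
  rw [e1, e2] at h1
  rw [e1, e3] at h2
  rw [e4, e5] at h3
  rw [e6, e5] at h4
  have hsub : (TP.Ev fun c => SR c k S x t) ⊆
      (((TP.Ev fun c => crs true c k (til S') (x.1 - 3 * t) (x.1 + 3 * t) (x.2 + t) (x.2 + 3 * t)) ∪
      (TP.Ev fun c => crs true c k (til S') (x.1 - 3 * t) (x.1 + 3 * t) (x.2 - 3 * t) (x.2 - t))) ∪
      (TP.Ev fun c => crs false c k (til S') (x.1 + t) (x.1 + 3 * t) (x.2 - 3 * t) (x.2 + 3 * t))) ∪
      (TP.Ev fun c => crs false c k (til S') (x.1 - 3 * t) (x.1 - t) (x.2 - 3 * t) (x.2 + 3 * t)) := by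
    intro b hb
    rcases anr (TP.col b) k S x t ht hb with g | g | g | g
    · refine Or.inl (Or.inl (Or.inl (SPR_crs true (TP.col b) k S x t _ _ _ _ ?_ g)))
      rintro w ⟨q1, q2, q3, q4⟩
      unfold sd
      omega
    · refine Or.inl (Or.inl (Or.inr (SPR_crs true (TP.col b) k S x t _ _ _ _ ?_ g)))
      rintro w ⟨q1, q2, q3, q4⟩
      unfold sd
      omega
    · refine Or.inl (Or.inr (SPR_crs false (TP.col b) k S x t _ _ _ _ ?_ g))
      rintro w ⟨q1, q2, q3, q4⟩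
      unfold sd
      omega
    · refine Or.inr (SPR_crs false (TP.col b) k S x t _ _ _ _ ?_ g)
      rintro w ⟨q1, q2, q3, q4⟩
      unfold sd
      omega
  have hm : Pr (TP.Ev fun c => SR c k S x t) ≤
      Pr (TP.Ev fun c => crs true c k (til S') (x.1 - 3 * t) (x.1 + 3 * t) (x.2 + t) (x.2 + 3 * t)) +
      Pr (TP.Ev fun c => crs true c k (til S') (x.1 - 3 * t) (x.1 + 3 * t) (x.2 - 3 * t) (x.2 - t)) +
      Pr (TP.Ev fun c => crs false c k (til S') (x.1 + t) (x.1 + 3 * t) (x.2 - 3 * t) (x.2 + 3 * t)) +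
      Pr (TP.Ev fun c => crs false c k (til S') (x.1 - 3 * t) (x.1 - t) (x.2 - 3 * t) (x.2 + 3 * t)) := by
    unfold Pr
    refine (measureReal_mono hsub (measure_ne_top _ _)).trans ?_
    refine (measureReal_union_le _ _).trans ?_
    refine add_le_add ((measureReal_union_le _ _).trans ?_) le_rfl
    exact add_le_add (measureReal_union_le _ _) le_rfl
  have e : 4 * C * (#S' : ℝ) / (t : ℝ) ^ 2 = C * #S' / (t : ℝ) ^ 2 + C * #S' / (t : ℝ) ^ 2 + C * #S' / (t : ℝ) ^ 2 +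
      C * #S' / (t : ℝ) ^ 2 := by ring
  rw [e]
  linarith

end TP.TW
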