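import Pool.Agent.helper25.TW.Spec

set_option autoImplicit false

namespace TP.TW

open DP MeasureTheory Finset

theorem SUM_cnt (X : Finset V) (α β : ℤ) (w : V) (r : ℕ) :
    #(X.filter fun v => sd (v.1 + α, v.2 + β) w ≤ r) ≤ (2 * r + 1) ^ 2 := by
  have hsub : X.filter (fun v => sd (v.1 + α, v.2 + β) w ≤ r) ⊆
      Icc (w.1 - α - r) (w.1 - α + r) ×ˢ Icc (w.2 - β - r) (w.2 - β + r) := by
    intro v hv
    rw [mem_filter] at hv
    have h := hv.2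
    unfold sd at h
    have h1 := le_trans (le_max_left _ _) h
    have h2 := le_trans (le_max_right _ _) h
    rw [mem_product, mem_Icc, mem_Icc]
    simp only at h1 h2
    refine ⟨⟨?_, ?_⟩, ?_, ?_⟩ <;> omega
  refine (card_le_card hsub).trans ?_
  rw [card_product, Int.card_Icc, Int.card_Icc]
  have e1 : (w.1 - α + r + 1 - (w.1 - α - r)).toNat = 2 * r + 1 := by omega
  have e2 : (w.2 - β + r + 1 - (w.2 - β - r)).toNat = 2 * r + 1 := by omega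
  rw [e1, e2, pow_two]

theorem SUM_dbl (X S : Finset V) (α β : ℤ) (r : ℕ) :
    ∑ v ∈ X, #(S.filter fun w => sd (v.1 + α, v.2 + β) w ≤ r) ≤ #S * (2 * r + 1) ^ 2 := by
  have h1 : ∑ v ∈ X, #(S.filter fun w => sd (v.1 + α, v.2 + β) w ≤ r) =
      ∑ w ∈ S, #(X.filter fun v => sd (v.1 + α, v.2 + β) w ≤ r) := by
    simp_rw [card_filter]
    rw [sum_comm]
  rw [h1]
  calc ∑ w ∈ S, #(X.filter fun v => sd (v.1 + α, v.2 + β) w ≤ r)
      ≤ ∑ _w ∈ S, (2 * r + 1) ^ 2 := sum_le_sum fun w _ => SUM_cnt X α β w r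
    _ = #S * (2 * r + 1) ^ 2 := by rw [sum_const, smul_eq_mul]

instance SUM_prob : IsProbabilityMeasure P1 := by
  unfold P1
  infer_instance

theorem SUM_one (C0 : ℝ) (hC0 : 0 < C0)
    (hS : ∀ (k : Bool) (S : Finset V) (x : V) (t : ℕ), 1 ≤ t →
      Pr (TP.Ev fun c => SR c k S x t) ≤ C0 * #(S.filter fun v => sd x v ≤ 3 * t + 1) / (t : ℝ) ^ 2)
    (hCV : CV_stmt) (n : ℕ) (S : Finset V) (hn : 2 ≤ n)
    (hSn : S ⊆ (univ : Finset (Fin n × Fin n)).image phi) (v₀ : V)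
    (hv : v₀ ∈ (univ : Finset (Fin n × Fin n)).image phi) :
    Pr (TP.Ev fun c => BAD c S v₀) ≤ (#(S.filter fun w => sd (v₀.1 + 0, v₀.2 + 0) w ≤ 200) : ℝ) +
      ∑ j ∈ range (Nat.log 2 n + 1) ×ˢ (univ : Finset Bool) ×ˢ (Icc (-400 : ℤ) 400) ×ˢ (Icc (-400 : ℤ) 400),
        C0 * #(S.filter fun w => sd (v₀.1 + 2 ^ j.1 * j.2.2.1, v₀.2 + 2 ^ j.1 * j.2.2.2) w ≤ 3 * 2 ^ j.1 + 1) /
          ((2 ^ j.1 : ℕ) : ℝ) ^ 2 := by
  have hnn : 0 ≤ ∑ j ∈ range (Nat.log 2 n + 1) ×ˢ (univ : Finset Bool) ×ˢ (Icc (-400 : ℤ) 400) ×ˢ (Icc (-400 : ℤ) 400),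
        C0 * #(S.filter fun w => sd (v₀.1 + 2 ^ j.1 * j.2.2.1, v₀.2 + 2 ^ j.1 * j.2.2.2) w ≤ 3 * 2 ^ j.1 + 1) /
          ((2 ^ j.1 : ℕ) : ℝ) ^ 2 := by
    apply sum_nonneg
    intro j _
    positivity
  by_cases hne : (S.filter fun w => sd (v₀.1 + 0, v₀.2 + 0) w ≤ 200).Nonempty
  · have h1 : (1 : ℝ) ≤ (#(S.filter fun w => sd (v₀.1 + 0, v₀.2 + 0) w ≤ 200) : ℝ) := by
      exact_mod_cast hne.card_pos
    have h2 : Pr (TP.Ev fun c => BAD c S v₀) ≤ 1 := by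
      unfold Pr
      exact measureReal_le_one
    linarith
  · have hemp : ∀ w ∈ S, ¬ sd v₀ w ≤ 200 := by
      intro w hw hle
      apply hne
      refine ⟨w, mem_filter.2 ⟨hw, ?_⟩⟩
      have : (v₀.1 + 0, v₀.2 + 0) = v₀ := by simp
      rw [this]
      exact hle
    have hsub : (TP.Ev fun c => BAD c S v₀) ⊆
        ⋃ j ∈ range (Nat.log 2 n + 1) ×ˢ (univ : Finset Bool) ×ˢ (Icc (-400 : ℤ) 400) ×ˢ (Icc (-400 : ℤ) 400),
          TP.Ev fun c => SR c j.2.1 S (v₀.1 + 2 ^ j.1 * j.2.2.1, v₀.2 + 2 ^ j.1 * j.2.2.2) (2 ^ j.1) := by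
      intro b hb
      have hb' : BAD (TP.col b) S v₀ := hb
      rcases hCV n (TP.col b) S v₀ hn hSn hv hb' with ⟨w, hw, hle⟩ | ⟨s, hs, k, p, hp, q, hq, hSR⟩
      · exact absurd hle (hemp w hw)
      · rw [Set.mem_iUnion₂]
        refine ⟨(s, k, p, q), ?_, hSR⟩
        simp only [mem_product, mem_univ, true_and]
        exact ⟨hs, hp, hq⟩
    have h3 : Pr (TP.Ev fun c => BAD c S v₀) ≤
        ∑ j ∈ range (Nat.log 2 n + 1) ×ˢ (univ : Finset Bool) ×ˢ (Icc (-400 : ℤ) 400) ×ˢ (Icc (-400 : ℤ) 400),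
          Pr (TP.Ev fun c => SR c j.2.1 S (v₀.1 + 2 ^ j.1 * j.2.2.1, v₀.2 + 2 ^ j.1 * j.2.2.2) (2 ^ j.1)) := by
      unfold Pr
      refine le_trans (measureReal_mono hsub ?_) (measureReal_biUnion_finset_le _ _)
      exact measure_ne_top _ _
    refine le_trans h3 (le_trans (sum_le_sum fun j _ => hS j.2.1 S _ (2 ^ j.1) Nat.one_le_two_pow) ?_)
    have h4 : (0 : ℝ) ≤ (#(S.filter fun w => sd (v₀.1 + 0, v₀.2 + 0) w ≤ 200) : ℝ) := Nat.cast_nonneg _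
    linarith

theorem SUM (cv : CV_stmt) (spr : SPR_stmt) (_lcr : LCR_stmt) : SUM_stmt := by
  obtain ⟨C0, hC0, hS⟩ := spr
  refine ⟨2 * 401 ^ 2 + 4 * (2 * 801 ^ 2) * (81 * C0), by positivity, ?_⟩
  intro n S hn hSn
  have hlog : (1 / 2 : ℝ) ≤ Real.log n := by
    have h2 : Real.log 2 ≤ Real.log n := Real.log_le_log (by norm_num) (by exact_mod_cast hn)
    have := Real.log_two_gt_d9
    linarith
  have hL : ((Nat.log 2 n : ℕ) : ℝ) ≤ 2 * Real.log n := by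
    have h1 : (2 : ℝ) ^ (Nat.log 2 n) ≤ n := by
      exact_mod_cast Nat.pow_log_le_self 2 (by omega)
    have h2 := Real.log_le_log (by positivity) h1
    rw [Real.log_pow] at h2
    have h3 := Real.log_two_gt_d9
    have h4 : (0 : ℝ) ≤ (Nat.log 2 n : ℕ) := Nat.cast_nonneg _
    nlinarith
  set X := (univ : Finset (Fin n × Fin n)).image phi with hX
  set J := range (Nat.log 2 n + 1) ×ˢ (univ : Finset Bool) ×ˢ (Icc (-400 : ℤ) 400) ×ˢ (Icc (-400 : ℤ) 400) with hJ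
  have hJc : (#J : ℝ) = ((Nat.log 2 n : ℕ) + 1) * (2 * (801 * 801)) := by
    rw [hJ, card_product, card_product, card_product, card_range, card_univ, Fintype.card_bool, Int.card_Icc]
    have : (400 + 1 - (-400 : ℤ)).toNat = 801 := by decide
    rw [this]
    push_cast
    ring
  calc ∑ v₀ ∈ X, Pr (TP.Ev fun c => BAD c S v₀)
      ≤ ∑ v₀ ∈ X, ((#(S.filter fun w => sd (v₀.1 + 0, v₀.2 + 0) w ≤ 200) : ℝ) +
        ∑ j ∈ J, C0 * #(S.filter fun w => sd (v₀.1 + 2 ^ j.1 * j.2.2.1, v₀.2 + 2 ^ j.1 * j.2.2.2) w ≤ 3 * 2 ^ j.1 + 1) /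
          ((2 ^ j.1 : ℕ) : ℝ) ^ 2) := sum_le_sum fun v₀ hv => SUM_one C0 hC0 hS cv n S hn hSn v₀ hv
    _ = ((∑ v₀ ∈ X, #(S.filter fun w => sd (v₀.1 + 0, v₀.2 + 0) w ≤ 200) : ℕ) : ℝ) +
        ∑ j ∈ J, C0 * ((∑ v₀ ∈ X, #(S.filter fun w => sd (v₀.1 + 2 ^ j.1 * j.2.2.1, v₀.2 + 2 ^ j.1 * j.2.2.2) w ≤ 3 * 2 ^ j.1 + 1) : ℕ) : ℝ) /
          ((2 ^ j.1 : ℕ) : ℝ) ^ 2 := by
        rw [sum_add_distrib, sum_comm]
        push_cast
        congr 1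
        apply sum_congr rfl
        intro j _
        rw [mul_sum, sum_div]
    _ ≤ #S * 401 ^ 2 + ∑ _j ∈ J, #S * (81 * C0) := by
        apply add_le_add
        · have := SUM_dbl X S 0 0 200
          have h2 : ((∑ v₀ ∈ X, #(S.filter fun w => sd (v₀.1 + 0, v₀.2 + 0) w ≤ 200) : ℕ) : ℝ) ≤ ((#S * (2 * 200 + 1) ^ 2 : ℕ) : ℝ) := by
            exact_mod_cast this
          refine le_trans h2 (le_of_eq ?_)
          push_cast
          norm_num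
        · apply sum_le_sum
          intro j _
          have h1 := SUM_dbl X S (2 ^ j.1 * j.2.2.1) (2 ^ j.1 * j.2.2.2) (3 * 2 ^ j.1 + 1)
          have h2 : ((∑ v₀ ∈ X, #(S.filter fun w => sd (v₀.1 + 2 ^ j.1 * j.2.2.1, v₀.2 + 2 ^ j.1 * j.2.2.2) w ≤ 3 * 2 ^ j.1 + 1) : ℕ) : ℝ) ≤
              #S * (81 * ((2 ^ j.1 : ℕ) : ℝ) ^ 2) := by
            have h3 : #S * (2 * (3 * 2 ^ j.1 + 1) + 1) ^ 2 ≤ #S * (81 * (2 ^ j.1) ^ 2) := by
              apply Nat.mul_le_mul_left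
              have h4 : 1 ≤ 2 ^ j.1 := Nat.one_le_two_pow
              nlinarith
            exact_mod_cast h1.trans h3
          have hpos : (0 : ℝ) < ((2 ^ j.1 : ℕ) : ℝ) ^ 2 := by positivity
          rw [div_le_iff₀ hpos]
          calc C0 * ((∑ v₀ ∈ X, #(S.filter fun w => sd (v₀.1 + 2 ^ j.1 * j.2.2.1, v₀.2 + 2 ^ j.1 * j.2.2.2) w ≤ 3 * 2 ^ j.1 + 1) : ℕ) : ℝ)
              ≤ C0 * (#S * (81 * ((2 ^ j.1 : ℕ) : ℝ) ^ 2)) := mul_le_mul_of_nonneg_left h2 hC0.le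
            _ = #S * (81 * C0) * ((2 ^ j.1 : ℕ) : ℝ) ^ 2 := by ring
    _ ≤ (2 * 401 ^ 2 + 4 * (2 * 801 ^ 2) * (81 * C0)) * #S * Real.log n := by
        rw [sum_const, nsmul_eq_mul, hJc]
        have hc : (0 : ℝ) ≤ #S := Nat.cast_nonneg _
        have hL1 : ((Nat.log 2 n : ℕ) : ℝ) + 1 ≤ 4 * Real.log n := by linarith
        have t1 : (#S : ℝ) * 401 ^ 2 ≤ #S * 401 ^ 2 * (2 * Real.log n) :=
          le_mul_of_one_le_right (by positivity) (by linarith)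
        have t2 : (((Nat.log 2 n : ℕ) : ℝ) + 1) * (2 * (801 * 801)) * (#S * (81 * C0)) ≤
            4 * Real.log n * (2 * (801 * 801)) * (#S * (81 * C0)) := by
          apply mul_le_mul_of_nonneg_right _ (by positivity)
          apply mul_le_mul_of_nonneg_right hL1 (by norm_num)
        calc _ ≤ #S * 401 ^ 2 * (2 * Real.log n) + 4 * Real.log n * (2 * (801 * 801)) * (#S * (81 * C0)) := add_le_add t1 t2
          _ = _ := by ring

end TP.TW
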