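import Pool.Agent.helper25.TW.Spec2

set_option autoImplicit false

namespace TP.TW

open DP MeasureTheory Finset

instance TCP_prob : IsProbabilityMeasure P1 := by
  unfold P1
  infer_instance

theorem TCP (arm : ARM_stmt) (prd : PRD_stmt) : TCP_stmt := by
  obtain ⟨R, hR, hprd⟩ := prd
  refine ⟨R, hR, ?_⟩
  intro k S i h hlow t ht
  have htpos : (0 : ℝ) < t := by exact_mod_cast ht
  by_cases hlt : t < 2 ^ (h + 1)
  · have h1 : Pr (TP.Ev fun c => TCH c k S i h t) ≤ 1 := by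
      unfold Pr
      exact measureReal_le_one
    have h2 : (1 : ℝ) ≤ 16 * 2 ^ h / (t : ℝ) := by
      rw [le_div_iff₀ htpos]
      have h3 : (t : ℝ) ≤ 2 ^ (h + 1) := by exact_mod_cast hlt.le
      have h4 : (0 : ℝ) < 2 ^ h := by positivity
      rw [pow_succ] at h3
      linarith
    exact h1.trans (one_le_pow₀ h2)
  · have hge : 2 ^ (h + 1) ≤ t := not_lt.1 hlt
    have hpos : 0 < 2 ^ (h + 1) := by positivity
    have hq : t / 2 ^ (h + 1) ≠ 0 := by
      have := (Nat.one_le_div_iff hpos).2 hge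
      omega
    obtain ⟨J, hJ⟩ : ∃ J, J = Nat.log 8 (t / 2 ^ (h + 1)) := ⟨_, rfl⟩
    have h1 : 8 ^ J ≤ t / 2 ^ (h + 1) := by
      rw [hJ]
      exact Nat.pow_log_le_self 8 hq
    have h2 : t / 2 ^ (h + 1) < 8 ^ (J + 1) := by
      rw [hJ]
      exact Nat.lt_pow_succ_log_self (by norm_num) _
    have h3 : 2 ^ (h + 1) * 8 ^ J ≤ t := by
      have := (Nat.le_div_iff_mul_le hpos).1 h1
      rw [Nat.mul_comm]
      exact this
    have h4 : t < 8 ^ (J + 1) * 2 ^ (h + 1) := (Nat.div_lt_iff_lt_mul hpos).1 h2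
    have h5 : Pr (TP.Ev fun c => TCH c k S i h t) ≤
        Pr (TP.Ev fun c => ∀ j < J, SRA c k S i (2 ^ (h + 2) * 8 ^ j)) := by
      unfold Pr
      refine measureReal_mono ?_ (measure_ne_top _ _)
      intro b hb
      exact arm (TP.col b) k S i h t J h3 hb
    refine h5.trans ((hprd k S i h hlow J).trans ?_)
    have h6 : (1 / 512 : ℝ) ^ J = ((1 / 8 : ℝ) ^ J) ^ 3 := by
      rw [← pow_mul, Nat.mul_comm, pow_mul]
      norm_num
    rw [h6]
    apply pow_le_pow_left₀ (by positivity)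
    rw [le_div_iff₀ htpos]
    have h7 : (t : ℝ) ≤ 8 ^ (J + 1) * 2 ^ (h + 1) := by exact_mod_cast h4.le
    have h8 : (1 / 8 : ℝ) ^ J * 8 ^ J = 1 := by
      rw [← mul_pow]
      norm_num
    calc (1 / 8 : ℝ) ^ J * t ≤ (1 / 8 : ℝ) ^ J * (8 ^ (J + 1) * 2 ^ (h + 1)) :=
          mul_le_mul_of_nonneg_left h7 (by positivity)
      _ = ((1 / 8 : ℝ) ^ J * 8 ^ J) * (16 * 2 ^ h) := by ring
      _ = 16 * 2 ^ h := by rw [h8, one_mul]

end TP.TW
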